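import Mathlib

set_option autoImplicit false

namespace Pool.Agent.H.MP_133c96_gt

open Set Filter Topology

variable {K : Type} [TopologicalSpace K]

inductive G : Ordinal.{0} → K → Prop
  | mk (α : Ordinal.{0}) (y : K) (U : Set K) (hU : IsOpen U) (hy : y ∈ U) (β : K → Ordinal.{0})
      (h1 : ∀ z ∈ U, z ≠ y → β z < α) (h2 : ∀ z ∈ U, z ≠ y → G (β z) z) : G α y

theorem rank (hs : ∀ S : Set K, S.Nonempty → ∃ x ∈ S, ∃ U : Set K, IsOpen U ∧ U ∩ S = {x}) :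
    ∃ ρ : K → Ordinal.{0}, ∀ y, ∃ U, IsOpen U ∧ y ∈ U ∧ ∀ z ∈ U, z ≠ y → ρ z < ρ y := by
  have h1 : ∀ y : K, ∃ α, G α y := by
    by_contra h
    push Not at h
    obtain ⟨y, hy, U, hU, e⟩ := hs {y | ∀ α, ¬ G α y} h
    have h2 : ∀ z, ∃ β, z ∈ U → z ≠ y → G β z := fun z => by
      by_contra h3
      push Not at h3
      have : z ∈ U ∩ {y | ∀ α, ¬ G α y} := ⟨(h3 0).1, fun α => (h3 α).2.2⟩
      rw [e] at this
      exact (h3 0).2.1 this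
    choose β hβ using h2
    exact hy _ (G.mk (⨆ z, Order.succ (β z)) y U hU (e ▸ mem_singleton y : y ∈ U ∩ _).1 β
      (fun z _ _ => (Order.lt_succ _).trans_le (Ordinal.le_iSup (fun z => Order.succ (β z)) z)) hβ)
  refine ⟨fun y => sInf {α | G α y}, fun y => ?_⟩
  have h2 : G (sInf {α | G α y}) y := csInf_mem (h1 y)
  beta_reduce
  generalize sInf {α | G α y} = γ at h2 ⊢
  cases h2 with
  | mk _ _ U hU hy β h3 h4 =>
    exact ⟨U, hU, hy, fun z hz hne =>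
      (csInf_le' (s := {α | G α z}) (h4 z hz hne)).trans_lt (h3 z hz hne)⟩

theorem td [T1Space K]
    (hs : ∀ S : Set K, S.Nonempty → ∃ x ∈ S, ∃ U : Set K, IsOpen U ∧ U ∩ S = {x}) :
    TotallyDisconnectedSpace K := by
  refine ⟨fun S _ hS a ha b hb => ?_⟩
  obtain ⟨x, hx, U, hU, e⟩ := hs S ⟨a, ha⟩
  have h1 : ∀ c ∈ S, c = x := fun c hc => by
    by_contra h
    obtain ⟨z, h2, h3, h4⟩ := hS U {x}ᶜ hU isOpen_compl_singleton (fun z _ => by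
      by_cases h5 : z = x
      · exact Or.inl (h5 ▸ (e ▸ mem_singleton x : x ∈ U ∩ S).1)
      · exact Or.inr h5) ⟨x, hx, (e ▸ mem_singleton x : x ∈ U ∩ S).1⟩ ⟨c, hc, h⟩
    exact h4 (e ▸ ⟨h3, h2⟩ : z ∈ ({x} : Set K))
  rw [h1 a ha, h1 b hb]

theorem core [CompactSpace K] [T2Space K]
    (hs : ∀ S : Set K, S.Nonempty → ∃ x ∈ S, ∃ U : Set K, IsOpen U ∧ U ∩ S = {x})
    (𝒢 : (n : ℕ) → (Fin n → K) → Set (Set K)) (hc : ∀ n v, (𝒢 n v).Countable)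
    (ho : ∀ n v, ∀ W ∈ 𝒢 n v, IsOpen W) :
    ∃ A : Set K, A.Countable ∧ ∀ x, ∃ y ∈ A, ∀ n (v : Fin n → K), (∀ i, v i ∈ A) →
      ∀ W ∈ 𝒢 n v, y ∈ W → x ∈ W := by
  obtain ⟨ρ, hρ⟩ := rank hs
  have h1 : ∀ y, ∃ U ∈ 𝓝 y, IsClosed U ∧ ∀ z ∈ U, z ≠ y → ρ z < ρ y := fun y => by
    obtain ⟨U, h1, h2, h3⟩ := hρ y
    obtain ⟨V, h4, h5, h6⟩ := exists_mem_nhds_isClosed_subset (h1.mem_nhds h2)
    exact ⟨V, h4, h5, fun z hz => h3 z (h6 hz)⟩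
  choose U u1 u2 u3 using h1
  have h2 : ∀ C : Set K, ∃ T : Finset K, IsClosed C → (∀ z ∈ T, z ∈ C) ∧ C ⊆ ⋃ z ∈ T, U z :=
    fun C => by
      by_cases h : IsClosed C
      · obtain ⟨T, h3⟩ := h.isCompact.elim_nhds_subcover U fun x _ => u1 x
        exact ⟨T, fun _ => h3⟩
      · exact ⟨∅, fun h' => absurd h' h⟩
  choose T hT using h2
  obtain ⟨B, b0, b1⟩ : ∃ B : ℕ → Set K, B 0 = T univ ∧ ∀ k, B (k + 1) = B k ∪ ⋃ y ∈ B k, ⋃ n,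
      ⋃ v ∈ univ.pi fun _ : Fin n => B k, ⋃ W ∈ 𝒢 n v, T (U y \ W) :=
    ⟨fun k => Nat.rec (T univ) (fun _ A => A ∪ ⋃ y ∈ A, ⋃ n,
      ⋃ v ∈ univ.pi fun _ : Fin n => A, ⋃ W ∈ 𝒢 n v, T (U y \ W)) k, rfl, fun _ => rfl⟩
  have c1 : ∀ k, (B k).Countable := fun k => by
    induction k with
    | zero => rw [b0]; exact Finset.countable_toSet _
    | succ k ih =>
      rw [b1]
      exact ih.union (ih.biUnion fun y _ => countable_iUnion fun n =>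
        (countable_univ_pi fun _ => ih).biUnion fun v _ => (hc n v).biUnion fun W _ =>
          Finset.countable_toSet _)
  have c2 : Monotone B := monotone_nat_of_le_succ fun k => by rw [b1]; exact subset_union_left
  refine ⟨⋃ k, B k, countable_iUnion c1, fun x => ?_⟩
  obtain ⟨y, ⟨h3, h4⟩, h5⟩ := (InvImage.wf ρ wellFounded_lt).has_min {y ∈ ⋃ k, B k | x ∈ U y} (by
    obtain ⟨z, hz, h⟩ := mem_iUnion₂.1 ((hT univ isClosed_univ).2 (mem_univ x))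
    exact ⟨z, mem_iUnion.2 ⟨0, b0 ▸ hz⟩, h⟩)
  refine ⟨y, h3, fun n v hv W hW hy => by_contra fun hx => ?_⟩
  obtain ⟨k, hk⟩ := mem_iUnion.1 h3
  choose j hj using fun i => mem_iUnion.1 (hv i)
  obtain ⟨m, hm⟩ := (finite_range j).bddAbove
  have h6 := hT _ ((u2 y).sdiff (ho n v W hW))
  obtain ⟨z, hz, h7⟩ := mem_iUnion₂.1 (h6.2 ⟨h4, hx⟩)
  refine h5 z ⟨mem_iUnion.2 ⟨max k m + 1, ?_⟩, h7⟩
    (u3 y z (h6.1 z hz).1 fun e => (h6.1 z hz).2 (e ▸ hy))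
  rw [b1]
  exact Or.inr (mem_biUnion (c2 (le_max_left k m) hk) (mem_iUnion.2 ⟨n, mem_biUnion
    (x := v) (fun i _ => c2 ((hm ⟨i, rfl⟩).trans (le_max_right k m)) (hj i)) (mem_biUnion hW hz)⟩))

end Pool.Agent.H.MP_133c96_gt
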